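import Pool.Agent.H174.GP.StP

/-!
# Exponential tail of sums of functions of the coordinates
-/

open MeasureTheory ProbabilityTheory Finset

namespace Pool.Agent.H729.GP174

open Pool.Agent.H174.GP

lemma integral_coord (j : ℕ) {f : ℝ → ℝ} (hf : Measurable f) :
    ∫ ω, f (ω j) ∂PP = ∫ x, f x ∂lap := by
  have h : MeasurePreserving (Function.eval j) PP lap :=
    measurePreserving_eval_infinitePi (fun _ : ℕ => lap) j
  have h2 := h.map_eq
  rw [← h2, integral_map h.measurable.aemeasurable hf.aestronglyMeasurable]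

lemma integrable_coord (j : ℕ) {f : ℝ → ℝ} (hf : Integrable f lap) :
    Integrable (fun ω : ℕ → ℝ => f (ω j)) PP := by
  have h : MeasurePreserving (Function.eval j) PP lap :=
    measurePreserving_eval_infinitePi (fun _ : ℕ => lap) j
  exact h.integrable_comp_of_integrable hf

/-- one side -/
lemma chern_one (J : Finset ℕ) (φ : ℕ → ℝ → ℝ) (c : ℕ → ℝ) (θ t : ℝ) (hθ : 0 ≤ θ)
    (hm : ∀ j ∈ J, Measurable (φ j))
    (hi : ∀ j ∈ J, Integrable (fun x => Real.exp (θ * φ j x)) lap)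
    (hc : ∀ j ∈ J, (∫ x, Real.exp (θ * φ j x) ∂lap) ≤ Real.exp (c j)) :
    PP.real {ω | t ≤ ∑ j ∈ J, φ j (ω j)} ≤ Real.exp (-(θ * t) + ∑ j ∈ J, c j) := by
  classical
  obtain ⟨ψ, hψ⟩ : ∃ ψ : ℕ → ℝ → ℝ, ψ = fun j => if j ∈ J then φ j else fun _ => 0 := ⟨_, rfl⟩
  have hψJ : ∀ j ∈ J, ψ j = φ j := fun j hj => by rw [hψ]; exact if_pos hj
  have hψm : ∀ j, Measurable (ψ j) := by
    intro j
    rw [hψ]
    by_cases hj : j ∈ J
    · simp only [hj, if_true]
      exact hm j hj
    · simp only [hj, if_false]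
      exact measurable_const
  obtain ⟨X, hX⟩ : ∃ X : ℕ → (ℕ → ℝ) → ℝ, X = fun j ω => ψ j (ω j) := ⟨_, rfl⟩
  have hind : iIndepFun X PP := by
    rw [hX]
    exact iIndepFun_infinitePi (P := fun _ : ℕ => lap) (X := ψ) hψm
  have hXm : ∀ j, Measurable (X j) := by
    intro j
    rw [hX]
    exact (hψm j).comp (measurable_pi_apply j)
  have hXi : ∀ j ∈ J, Integrable (fun ω => Real.exp (θ * X j ω)) PP := by
    intro j hj
    have h1 := integrable_coord j (hi j hj)
    rw [hX]
    simp only [hψJ j hj]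
    exact h1
  have h1 : {ω : ℕ → ℝ | t ≤ ∑ j ∈ J, φ j (ω j)} = {ω | t ≤ (∑ j ∈ J, X j) ω} := by
    ext ω
    rw [Set.mem_ofPred_eq, Set.mem_ofPred_eq, Finset.sum_apply]
    have h2 : ∑ j ∈ J, φ j (ω j) = ∑ j ∈ J, X j ω := by
      refine sum_congr rfl fun j hj => ?_
      rw [hX]
      simp only [hψJ j hj]
    rw [h2]
  rw [h1]
  have h2 := measure_ge_le_exp_mul_mgf (μ := PP) (X := ∑ j ∈ J, X j) t hθ
    (hind.integrable_exp_mul_sum hXm hXi)
  refine h2.trans ?_
  rw [hind.mgf_sum hXm J, Real.exp_add, Real.exp_sum, neg_mul]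
  refine mul_le_mul_of_nonneg_left ?_ (Real.exp_pos _).le
  refine prod_le_prod (fun j _ => mgf_nonneg) ?_
  intro j hj
  have h3 : mgf (X j) PP θ = ∫ x, Real.exp (θ * φ j x) ∂lap := by
    unfold mgf
    rw [hX]
    simp only [hψJ j hj]
    exact integral_coord j (f := fun x => Real.exp (θ * φ j x))
      (Real.measurable_exp.comp ((hm j hj).const_mul θ))
  rw [h3]
  exact hc j hj

theorem gp_chern : Pool.Agent.H174.GP.S_chern := by
  intro J φ c θ t hθ hm hi hc
  have h1 := chern_one J φ c θ t hθ hm (fun j hj => (hi j hj).1) (fun j hj => (hc j hj).1)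
  have h2 := chern_one J (fun j x => - φ j x) c θ t hθ (fun j hj => (hm j hj).neg)
    (fun j hj => by
      have h3 := (hi j hj).2
      have h4 : (fun x => Real.exp (θ * -φ j x)) = fun x => Real.exp (-(θ * φ j x)) := by
        funext x
        rw [mul_neg]
      rw [h4]
      exact h3)
    (fun j hj => by
      have h3 := (hc j hj).2
      have h4 : (fun x => Real.exp (θ * -φ j x)) = fun x => Real.exp (-(θ * φ j x)) := by
        funext x
        rw [mul_neg]
      rw [h4]
      exact h3)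
  have h5 : {ω : ℕ → ℝ | t ≤ |∑ j ∈ J, φ j (ω j)|} ⊆
      {ω | t ≤ ∑ j ∈ J, φ j (ω j)} ∪ {ω | t ≤ ∑ j ∈ J, - φ j (ω j)} := by
    intro ω hω
    rw [Set.mem_ofPred_eq, le_abs] at hω
    rcases hω with h | h
    · exact Or.inl h
    · refine Or.inr ?_
      rw [Set.mem_ofPred_eq, sum_neg_distrib]
      exact h
  refine (measureReal_mono h5 (measure_ne_top _ _)).trans ((measureReal_union_le _ _).trans ?_)
  linarith

end Pool.Agent.H729.GP174
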