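import Pool.Agent.H174.GP.StA
import Pool.Agent.H174.GP.StP
import Pool.Agent.H174.GP.StC

/-!
# Crude lower bound for the positivity of the process on an interval
-/

open MeasureTheory ProbabilityTheory Finset

namespace Pool.Agent.H729.GP174

open Pool.Agent.H174.GP

/-- the event that the process is large on the set `s` -/
def Ev (φ : ℕ → ℝ → ℝ) (L : ℕ) (t : ℕ → ℝ) (s : Finset ℕ) : Set (ℕ → ℝ) :=
  {ω | ∀ x ∈ s, t x ≤ Cs (fun j => φ j (ω j)) L x}

lemma Ev_meas (φ : ℕ → ℝ → ℝ) (L : ℕ) (t : ℕ → ℝ) (s : Finset ℕ)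
    (hm : ∀ j ∈ Finset.Icc 1 L, Monotone (φ j)) : MeasurableSet (Ev φ L t s) := by
  have h1 : Ev φ L t s = ⋂ x ∈ s, {ω | t x ≤ Cs (fun j => φ j (ω j)) L x} := by
    ext ω
    simp [Ev]
  rw [h1]
  refine Finset.measurableSet_biInter s fun x _ => measurableSet_le measurable_const ?_
  unfold Cs
  refine Finset.measurable_sum _ fun j hj => ?_
  exact (((hm j hj).measurable).comp (measurable_pi_apply j)).const_mul _

lemma Ev_dep (φ : ℕ → ℝ → ℝ) (L : ℕ) (t : ℕ → ℝ) (s : Finset ℕ) :
    DepOn (Finset.Icc 1 L) (Ev φ L t s) := by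
  intro ω ω' h hω x hx
  have h1 := hω x hx
  have h2 : Cs (fun j => φ j (ω' j)) L x = Cs (fun j => φ j (ω j)) L x := by
    unfold Cs
    refine sum_congr rfl fun j hj => ?_
    show _ * φ j (ω' j) = _ * φ j (ω j)
    rw [h j hj]
  rw [h2]
  exact h1

lemma Ev_upper (φ : ℕ → ℝ → ℝ) (L : ℕ) (t : ℕ → ℝ) (s : Finset ℕ)
    (hm : ∀ j ∈ Finset.Icc 1 L, Monotone (φ j)) : IsUpperSet (Ev φ L t s) := by
  intro ω ω' h hω x hx
  refine (hω x hx).trans ?_
  unfold Cs
  refine sum_le_sum fun j hj => ?_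
  exact mul_le_mul_of_nonneg_left (hm j hj (h j)) (Nat.cast_nonneg _)

/-- two events -/
lemma harris2 (h2 : S_harrisN) (I : Finset ℕ) (F G : Set (ℕ → ℝ)) (hF : MeasurableSet F)
    (hG : MeasurableSet G) (hF2 : DepOn I F) (hG2 : DepOn I G) (hF3 : IsUpperSet F)
    (hG3 : IsUpperSet G) : PP.real F * PP.real G ≤ PP.real (F ∩ G) := by
  have h := h2 I (Finset.range 2) (fun i => if i = 0 then F else G) ?_ ?_ ?_
  · rw [prod_range_succ, prod_range_succ, prod_range_zero, one_mul] at h
    simp only [if_true, one_ne_zero, if_false] at h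
    refine h.trans (measureReal_mono ?_ (measure_ne_top _ _))
    intro ω hω
    rw [Set.mem_iInter₂] at hω
    refine ⟨?_, ?_⟩
    · have := hω 0 (by simp)
      simpa using this
    · have := hω 1 (by simp)
      simpa using this
  · intro i _
    by_cases hi : i = 0
    · simp only [hi, if_true]; exact hF
    · simp only [hi, if_false]; exact hG
  · intro i _
    by_cases hi : i = 0
    · simp only [hi, if_true]; exact hF2
    · simp only [hi, if_false]; exact hG2
  · intro i _
    by_cases hi : i = 0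
    · simp only [hi, if_true]; exact hF3
    · simp only [hi, if_false]; exact hG3

theorem gp_crude (h1 : S_block) (h2 : S_harrisN) : Pool.Agent.H174.GP.S_crude := by
  intro cv Cv κ hcv hCv hκ
  obtain ⟨h, hh0, hh1, c1, hc0, hc1, δ0, hδ, hb⟩ := h1 cv Cv κ hcv hCv hκ
  have hlog : 0 < Real.log (1 + h) := Real.log_pos (by linarith)
  have hlc : 0 < Real.log (1 / c1) := by
    refine Real.log_pos ?_
    rw [lt_div_iff₀ hc0]
    linarith
  obtain ⟨κ1, hκ1⟩ : ∃ κ1, κ1 = Real.log (1 / c1) / Real.log (1 + h) := ⟨_, rfl⟩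
  have hκ0 : 0 < κ1 := by rw [hκ1]; exact div_pos hlc hlog
  have hpow : (1 + h) ^ κ1 = 1 / c1 := by
    rw [Real.rpow_def_of_pos (by linarith), hκ1, mul_div_cancel₀ _ hlog.ne',
      Real.exp_log (by positivity)]
  refine ⟨c1, hc0, κ1, hκ0, δ0, hδ, ?_⟩
  intro φ A L a b hA
  have key : ∀ (n a : ℕ), b - a = n → 1 ≤ a → a ≤ b → b ≤ L →
      c1 * ((a : ℝ) / b) ^ κ1 ≤
        PP.real (Ev φ L (fun x => δ0 * A * Real.sqrt x) (Finset.Icc a b)) := by
    intro n
    induction n using Nat.strong_induction_on with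
    | _ n ih =>
      intro a hn ha hab hbL
      have ha0 : (0 : ℝ) < a := by exact_mod_cast ha
      have hb0 : (0 : ℝ) < b := by exact_mod_cast lt_of_lt_of_le ha hab
      have hab' : (a : ℝ) ≤ b := by exact_mod_cast hab
      rcases le_or_gt (b : ℝ) ((1 + h) * a) with hcase | hcase
      · have h3 := hb φ A L a b hA ha hab hbL hcase
        have h4 : ((a : ℝ) / b) ^ κ1 ≤ 1 :=
          Real.rpow_le_one (by positivity) ((div_le_one hb0).2 hab') hκ0.le
        exact (mul_le_of_le_one_right hc0.le h4).trans h3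
      · obtain ⟨m, hm⟩ : ∃ m, m = ⌊(1 + h) * (a : ℝ)⌋₊ := ⟨_, rfl⟩
        have hm1 : (m : ℝ) ≤ (1 + h) * a := by
          rw [hm]
          exact Nat.floor_le (by positivity)
        have hm2 : (1 + h) * (a : ℝ) < m + 1 := by
          rw [hm]
          exact Nat.lt_floor_add_one _
        have hm3 : a ≤ m := by
          rw [hm]
          refine Nat.le_floor ?_
          nlinarith
        have hm4 : m < b := by
          rw [hm]
          exact (Nat.floor_lt (by positivity)).2 hcase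
        have h3 := hb φ A L a m hA ha hm3 (by omega) hm1
        have h4 := ih (b - (m + 1)) (by omega) (m + 1) rfl (by omega) (by omega) hbL
        have h5 := harris2 h2 (Finset.Icc 1 L)
          (Ev φ L (fun x => δ0 * A * Real.sqrt x) (Finset.Icc a m))
          (Ev φ L (fun x => δ0 * A * Real.sqrt x) (Finset.Icc (m + 1) b))
          (Ev_meas _ _ _ _ hA.mono) (Ev_meas _ _ _ _ hA.mono) (Ev_dep _ _ _ _) (Ev_dep _ _ _ _)
          (Ev_upper _ _ _ _ hA.mono) (Ev_upper _ _ _ _ hA.mono)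
        have h6 : Ev φ L (fun x => δ0 * A * Real.sqrt x) (Finset.Icc a m) ∩
            Ev φ L (fun x => δ0 * A * Real.sqrt x) (Finset.Icc (m + 1) b) ⊆
            Ev φ L (fun x => δ0 * A * Real.sqrt x) (Finset.Icc a b) := by
          rintro ω ⟨h7, h8⟩ x hx
          rw [Finset.mem_Icc] at hx
          rcases le_or_gt x m with h9 | h9
          · exact h7 x (Finset.mem_Icc.2 ⟨hx.1, h9⟩)
          · exact h8 x (Finset.mem_Icc.2 ⟨h9, hx.2⟩)
        have h7 : c1 * ((a : ℝ) / b) ^ κ1 ≤ c1 * (c1 * (((m + 1 : ℕ) : ℝ) / b) ^ κ1) := by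
          refine mul_le_mul_of_nonneg_left ?_ hc0.le
          have h8 : ((1 + h) * ((a : ℝ) / b)) ^ κ1 ≤ (((m + 1 : ℕ) : ℝ) / b) ^ κ1 := by
            refine Real.rpow_le_rpow (by positivity) ?_ hκ0.le
            rw [← mul_div_assoc]
            refine div_le_div_of_nonneg_right ?_ hb0.le
            push_cast
            exact hm2.le
          rw [Real.mul_rpow (by linarith) (by positivity), hpow] at h8
          calc ((a : ℝ) / b) ^ κ1 = c1 * (1 / c1 * ((a : ℝ) / b) ^ κ1) := by
                field_simp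
            _ ≤ c1 * (((m + 1 : ℕ) : ℝ) / b) ^ κ1 := mul_le_mul_of_nonneg_left h8 hc0.le
        have h8 : c1 * (c1 * (((m + 1 : ℕ) : ℝ) / b) ^ κ1) ≤
            PP.real (Ev φ L (fun x => δ0 * A * Real.sqrt x) (Finset.Icc a m)) *
            PP.real (Ev φ L (fun x => δ0 * A * Real.sqrt x) (Finset.Icc (m + 1) b)) :=
          mul_le_mul h3 h4 (by positivity) measureReal_nonneg
        exact h7.trans (h8.trans (h5.trans (measureReal_mono h6 (measure_ne_top _ _))))
  intro ha hab hbL
  exact key (b - a) a rfl ha hab hbL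

end Pool.Agent.H729.GP174
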