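import Pool.Agent.H174.GP.StE
import Pool.Agent.H174.GP.StA
import Pool.Agent.H174.GP.StP

/-!
# The middle sum is large with constant probability
-/

open MeasureTheory ProbabilityTheory Finset

namespace Pool.Agent.H729.GP174

open Pool.Agent.H174.GP

/-- one group -/
theorem mid2a_single (h2 : S_pz) (φ : ℕ → ℝ → ℝ) (B d m : ℕ) (v K : ℝ) (hv0 : 0 < v) (hK : 0 ≤ K) (hm : 1 ≤ m)
    (meas : ∀ j ∈ Finset.Ioc B d, Measurable (φ j)) (odd : ∀ j ∈ Finset.Ioc B d, ∀ x, φ j (-x) = - φ j x)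
    (int : ∀ j ∈ Finset.Ioc B d, Integrable (fun x => (φ j x) ^ 4) lap)
    (lo : ∀ j ∈ Finset.Ioc B d, v ≤ ∫ x, (φ j x) ^ 2 ∂lap) (hi : ∀ j ∈ Finset.Ioc B d, ∫ x, (φ j x) ^ 4 ∂lap ≤ K)
    (a b : ℕ) (ha : B ≤ a) (hb : b ≤ d) (hab : a + m ≤ b) :
    (9 / 32) / (3 + K / v ^ 2) ≤ PP.real {ω | Real.sqrt (v * m) / 2 ≤ ∑ j ∈ Finset.Ioc a b, φ j (ω j)} := by
  have hsub : ∀ j ∈ Finset.Ioc a b, j ∈ Finset.Ioc B d := by
    intro j hj
    rw [Finset.mem_Ioc] at hj ⊢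
    omega
  have hn : (Finset.Ioc a b).card = b - a := Nat.card_Ioc a b
  have hn1 : m ≤ (Finset.Ioc a b).card := by rw [hn]; omega
  obtain ⟨n, hnn⟩ : ∃ n : ℝ, n = ((Finset.Ioc a b).card : ℝ) := ⟨_, rfl⟩
  have hnm : (m : ℝ) ≤ n := by rw [hnn]; exact_mod_cast hn1
  have hm1 : (1 : ℝ) ≤ m := by exact_mod_cast hm
  have e4 : (∑ j ∈ Finset.Ioc a b, ∫ x, (φ j x) ^ 4 ∂lap) ≤ n * K := by
    have h := Finset.sum_le_card_nsmul (Finset.Ioc a b) (fun j => ∫ x, (φ j x) ^ 4 ∂lap) K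
      (fun j hj => hi j (hsub j hj))
    rw [nsmul_eq_mul] at h
    rw [hnn]
    exact h
  have e2 : n * v ≤ ∑ j ∈ Finset.Ioc a b, ∫ x, (φ j x) ^ 2 ∂lap := by
    have h := Finset.card_nsmul_le_sum (Finset.Ioc a b) (fun j => ∫ x, (φ j x) ^ 2 ∂lap) v
      (fun j hj => lo j (hsub j hj))
    rw [nsmul_eq_mul] at h
    rw [hnn]
    exact h
  have hnv : 0 ≤ n * v := mul_nonneg (by linarith) hv0.le
  have key : (∑ j ∈ Finset.Ioc a b, ∫ x, (φ j x) ^ 4 ∂lap) ≤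
      K / v ^ 2 * (∑ j ∈ Finset.Ioc a b, ∫ x, (φ j x) ^ 2 ∂lap) ^ 2 := by
    have h5 : (n * v) ^ 2 ≤ (∑ j ∈ Finset.Ioc a b, ∫ x, (φ j x) ^ 2 ∂lap) ^ 2 := pow_le_pow_left₀ hnv e2 2
    have h6 : K / v ^ 2 * (n * v) ^ 2 ≤ K / v ^ 2 * (∑ j ∈ Finset.Ioc a b, ∫ x, (φ j x) ^ 2 ∂lap) ^ 2 :=
      mul_le_mul_of_nonneg_left h5 (by positivity)
    have h7 : K / v ^ 2 * (n * v) ^ 2 = K * n ^ 2 := by
      field_simp
    have h8 : n * K ≤ K * n ^ 2 := by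
      have h9 : n ≤ n ^ 2 := by nlinarith
      nlinarith
    linarith
  have h := h2 (Finset.Ioc a b) φ (K / v ^ 2) (by positivity) (fun j hj => meas j (hsub j hj))
    (fun j hj => odd j (hsub j hj)) (fun j hj => int j (hsub j hj)) key
  refine h.trans (measureReal_mono ?_)
  intro ω hω
  have h9 : Real.sqrt (∑ j ∈ Finset.Ioc a b, ∫ x, (φ j x) ^ 2 ∂lap) / 2 ≤ ∑ j ∈ Finset.Ioc a b, φ j (ω j) := hω
  have h10 : Real.sqrt (v * m) ≤ Real.sqrt (∑ j ∈ Finset.Ioc a b, ∫ x, (φ j x) ^ 2 ∂lap) := by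
    apply Real.sqrt_le_sqrt
    nlinarith
  show Real.sqrt (v * m) / 2 ≤ ∑ j ∈ Finset.Ioc a b, φ j (ω j)
  linarith

theorem mid2a_meas (φ : ℕ → ℝ → ℝ) (a b : ℕ) (meas : ∀ j ∈ Finset.Ioc a b, Measurable (φ j)) (t : ℝ) :
    MeasurableSet {ω : ℕ → ℝ | t ≤ ∑ j ∈ Finset.Ioc a b, φ j (ω j)} := by
  have h : Measurable (fun ω : ℕ → ℝ => ∑ j ∈ Finset.Ioc a b, φ j (ω j)) :=
    Finset.measurable_sum _ fun j hj => (meas j hj).comp (measurable_pi_apply j)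
  exact measurableSet_le measurable_const h

theorem mid2a_dep (φ : ℕ → ℝ → ℝ) (a b : ℕ) (t : ℝ) :
    DepOn (Finset.Ioc a b) {ω : ℕ → ℝ | t ≤ ∑ j ∈ Finset.Ioc a b, φ j (ω j)} := by
  intro ω ω' h hω
  have e : ∑ j ∈ Finset.Ioc a b, φ j (ω' j) = ∑ j ∈ Finset.Ioc a b, φ j (ω j) :=
    Finset.sum_congr rfl fun j hj => by rw [h j hj]
  show t ≤ ∑ j ∈ Finset.Ioc a b, φ j (ω' j)
  rw [e]
  exact hω

/-- several groups -/
theorem mid2a_groups (h2 : S_pz) (h3 : S_indep) (φ : ℕ → ℝ → ℝ) (B d m : ℕ) (v K : ℝ) (hv0 : 0 < v) (hK : 0 ≤ K)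
    (hm : 1 ≤ m)
    (meas : ∀ j ∈ Finset.Ioc B d, Measurable (φ j)) (odd : ∀ j ∈ Finset.Ioc B d, ∀ x, φ j (-x) = - φ j x)
    (int : ∀ j ∈ Finset.Ioc B d, Integrable (fun x => (φ j x) ^ 4) lap)
    (lo : ∀ j ∈ Finset.Ioc B d, v ≤ ∫ x, (φ j x) ^ 2 ∂lap) (hi : ∀ j ∈ Finset.Ioc B d, ∫ x, (φ j x) ^ 4 ∂lap ≤ K)
    (G : ℕ) : ∀ a : ℕ, B ≤ a → a + (G + 1) * m ≤ d →
    ((9 / 32) / (3 + K / v ^ 2)) ^ (G + 1) ≤
      PP.real {ω | ((G : ℝ) + 1) * (Real.sqrt (v * m) / 2) ≤ ∑ j ∈ Finset.Ioc a d, φ j (ω j)} := by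
  have hp0 : 0 ≤ (9 / 32) / (3 + K / v ^ 2) := by positivity
  induction G with
  | zero =>
    intro a ha had
    have h := mid2a_single h2 φ B d m v K hv0 hK hm meas odd int lo hi a d ha le_rfl (by omega)
    simpa using h
  | succ G ih =>
    intro a ha had
    have e0 : (G + 1 + 1) * m = m + (G + 1) * m := by ring
    rw [e0] at had
    have h4 := mid2a_single h2 φ B d m v K hv0 hK hm meas odd int lo hi a (a + m) ha (by omega) le_rfl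
    have h5 := ih (a + m) (by omega) (by omega)
    have hdis : Disjoint (Finset.Ioc a (a + m)) (Finset.Ioc (a + m) d) := by
      rw [Finset.disjoint_left]
      intro j h6 h7
      rw [Finset.mem_Ioc] at h6 h7
      omega
    have hm1 : ∀ j ∈ Finset.Ioc a (a + m), Measurable (φ j) := fun j hj => meas j (by
      rw [Finset.mem_Ioc] at hj ⊢
      omega)
    have hm2 : ∀ j ∈ Finset.Ioc (a + m) d, Measurable (φ j) := fun j hj => meas j (by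
      rw [Finset.mem_Ioc] at hj ⊢
      omega)
    have h6 := h3 (Finset.Ioc a (a + m)) (Finset.Ioc (a + m) d)
      {ω | Real.sqrt (v * m) / 2 ≤ ∑ j ∈ Finset.Ioc a (a + m), φ j (ω j)}
      {ω | ((G : ℝ) + 1) * (Real.sqrt (v * m) / 2) ≤ ∑ j ∈ Finset.Ioc (a + m) d, φ j (ω j)} hdis
      (mid2a_meas φ a (a + m) hm1 _) (mid2a_meas φ (a + m) d hm2 _) (mid2a_dep φ a (a + m) _)
      (mid2a_dep φ (a + m) d _)
    have h7 : ((9 / 32) / (3 + K / v ^ 2)) ^ (G + 1 + 1) ≤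
        PP.real {ω | Real.sqrt (v * m) / 2 ≤ ∑ j ∈ Finset.Ioc a (a + m), φ j (ω j)} *
        PP.real {ω | ((G : ℝ) + 1) * (Real.sqrt (v * m) / 2) ≤ ∑ j ∈ Finset.Ioc (a + m) d, φ j (ω j)} := by
      rw [pow_succ']
      exact mul_le_mul h4 h5 (by positivity) measureReal_nonneg
    rw [← h6] at h7
    refine h7.trans (measureReal_mono ?_)
    rintro ω ⟨h8, h9⟩
    have h8' : Real.sqrt (v * m) / 2 ≤ ∑ j ∈ Finset.Ioc a (a + m), φ j (ω j) := h8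
    have h9' : ((G : ℝ) + 1) * (Real.sqrt (v * m) / 2) ≤ ∑ j ∈ Finset.Ioc (a + m) d, φ j (ω j) := h9
    have h10 : ∑ j ∈ Finset.Ioc a (a + m), φ j (ω j) + ∑ j ∈ Finset.Ioc (a + m) d, φ j (ω j) =
        ∑ j ∈ Finset.Ioc a d, φ j (ω j) :=
      Finset.sum_Ioc_consecutive (fun j => φ j (ω j)) (by omega) (by omega)
    show (((G + 1 : ℕ) : ℝ) + 1) * (Real.sqrt (v * m) / 2) ≤ ∑ j ∈ Finset.Ioc a d, φ j (ω j)
    rw [← h10]
    push_cast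
    linarith

/-- **Middle sum is large with constant probability.** -/
theorem gp_mid2a (h1 : S_AdmGeo) (h2 : S_pz) (h3 : S_indep) (h4 : S_Tq) : Pool.Agent.H174.GP.S_mid2a := by
  intro s1 s2 η C1 hs1 hs2 hη hη4 hC1
  obtain ⟨cv, hcv, Cv, -, κ, hκ, hadm⟩ := h1 s2 hs2
  obtain ⟨v, hv⟩ : ∃ v : ℝ, v = cv / s2 ^ 2 := ⟨_, rfl⟩
  obtain ⟨K, hK⟩ : ∃ K : ℝ, K = κ / (η * s1) ^ 4 := ⟨_, rfl⟩
  have hv0 : 0 < v := by rw [hv]; positivity
  have hK0 : 0 ≤ K := by rw [hK]; positivity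
  obtain ⟨G, hG⟩ : ∃ G : ℕ, 8 * C1 ^ 2 / v ≤ (G : ℝ) := exists_nat_ge _
  refine ⟨((9 / 32) / (3 + K / v ^ 2)) ^ (G + 1), by positivity, 4 * (G + 1), ?_⟩
  intro d hd σ hσ hσ1 hσ2
  have hG1 : (0 : ℝ) < (G : ℝ) + 1 := by positivity
  have hd4 : 4 * ((G : ℝ) + 1) ≤ d := by exact_mod_cast hd
  have hd0 : (0 : ℝ) < d := by linarith
  obtain ⟨B, hB⟩ : ∃ B : ℕ, B = ⌊η * d⌋₊ := ⟨_, rfl⟩
  have hBle : (B : ℝ) ≤ η * d := by rw [hB]; exact Nat.floor_le (by positivity)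
  obtain ⟨m, hm⟩ : ∃ m : ℕ, m = (d - B) / (G + 1) := ⟨_, rfl⟩
  have hBd : B ≤ d := by
    have h5 : (B : ℝ) ≤ d := by nlinarith
    exact_mod_cast h5
  have hmle : (G + 1) * m ≤ d - B := by rw [hm]; exact Nat.mul_div_le _ _
  have hmlt : d - B < (G + 1) * (m + 1) := by
    rw [hm]
    exact Nat.lt_mul_div_succ _ (Nat.succ_pos G)
  have hmreal : (d : ℝ) - B < ((G : ℝ) + 1) * (m + 1) := by
    have h5 : ((d - B : ℕ) : ℝ) < (((G + 1) * (m + 1) : ℕ) : ℝ) := by exact_mod_cast hmlt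
    rw [Nat.cast_sub hBd] at h5
    push_cast at h5
    exact h5
  have hm2 : (d : ℝ) ≤ 2 * (((G : ℝ) + 1) * m) := by nlinarith
  have hm1 : 1 ≤ m := by
    rcases Nat.eq_zero_or_pos m with h5 | h5
    · rw [h5] at hm2
      simp only [Nat.cast_zero, mul_zero] at hm2
      linarith
    · exact h5
  have hA := hadm σ d hσ hσ2
  have hIoc : ∀ j ∈ Finset.Ioc B d, j ∈ Finset.Icc 1 d := by
    intro j hj
    rw [Finset.mem_Ioc] at hj
    rw [Finset.mem_Icc]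
    omega
  have hjlo : ∀ j ∈ Finset.Ioc B d, η * s1 ≤ σ * j := by
    intro j hj
    rw [Finset.mem_Ioc, hB] at hj
    have h5 : η * d < j := (Nat.floor_lt (by positivity)).1 hj.1
    nlinarith
  have hjhi : ∀ j ∈ Finset.Ioc B d, σ * j ≤ s2 := by
    intro j hj
    rw [Finset.mem_Ioc] at hj
    have h5 : (j : ℝ) ≤ d := by exact_mod_cast hj.2
    nlinarith
  have hjpos : ∀ j ∈ Finset.Ioc B d, (0 : ℝ) < j := by
    intro j hj
    rw [Finset.mem_Ioc] at hj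
    have h5 : 0 < j := by omega
    exact_mod_cast h5
  have hgr := mid2a_groups h2 h3 (fun j x => (Tq (σ * j) x : ℝ)) B d m v K hv0 hK0 hm1
    (fun j hj => by
      have h5 := (h4 (σ * j) (mul_pos hσ (hjpos j hj))).2.2.2.1
      exact (measurable_from_top (f := fun z : ℤ => (z : ℝ))).comp h5)
    (fun j hj x => hA.odd j (hIoc j hj) x) (fun j hj => hA.int j (hIoc j hj))
    (fun j hj => by
      refine le_trans ?_ (hA.lo j (hIoc j hj))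
      have h5 := hjpos j hj
      have e : cv * (1 / σ) ^ 2 / (j : ℝ) ^ 2 = cv / (σ * j) ^ 2 := by
        field_simp
      rw [e, hv]
      apply div_le_div_of_nonneg_left hcv.le (by positivity)
      exact pow_le_pow_left₀ (by positivity) (hjhi j hj) 2)
    (fun j hj => by
      refine le_trans (hA.four j (hIoc j hj)) ?_
      have h5 := hjpos j hj
      have e : κ * (1 / σ) ^ 4 / (j : ℝ) ^ 4 = κ / (σ * j) ^ 4 := by
        field_simp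
      rw [e, hK]
      apply div_le_div_of_nonneg_left hκ.le (by positivity)
      exact pow_le_pow_left₀ (by positivity) (hjlo j hj) 4)
    G B le_rfl (by omega)
  refine hgr.trans (measureReal_mono ?_)
  intro ω hω
  have h5 : ((G : ℝ) + 1) * (Real.sqrt (v * m) / 2) ≤ ∑ j ∈ Finset.Ioc B d, (Tq (σ * j) (ω j) : ℝ) := hω
  show C1 * Real.sqrt d ≤ ∑ j ∈ Finset.Ioc ⌊η * d⌋₊ d, (geo σ ω j : ℝ)
  rw [← hB]
  refine le_trans ?_ h5
  have h6 : (C1 * Real.sqrt d) ^ 2 ≤ (((G : ℝ) + 1) * (Real.sqrt (v * m) / 2)) ^ 2 := by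
    rw [mul_pow, Real.sq_sqrt hd0.le, mul_pow, div_pow, Real.sq_sqrt (by positivity)]
    rw [div_le_iff₀ hv0] at hG
    have h7 : 8 * C1 ^ 2 ≤ ((G : ℝ) + 1) * v := by nlinarith
    have h8 : C1 ^ 2 * (d : ℝ) ≤ C1 ^ 2 * (2 * (((G : ℝ) + 1) * m)) := mul_le_mul_of_nonneg_left hm2 (by positivity)
    have h9 : 8 * C1 ^ 2 * (((G : ℝ) + 1) * m) ≤ ((G : ℝ) + 1) * v * (((G : ℝ) + 1) * m) :=
      mul_le_mul_of_nonneg_right h7 (by positivity)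
    nlinarith
  exact le_of_sq_le_sq h6 (by positivity)

end Pool.Agent.H729.GP174
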